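import Mathlib

set_option autoImplicit false

namespace Pool.Agent.Helper90.EG

/-! ### Words -/

/-- `Lt u v`: the words `u` and `v` deviate, and at the first deviation `u` has the smaller letter. -/
def Lt {α : Type} [LT α] (u v : List α) : Prop :=
  ∃ (w u' v' : List α) (a b : α), u = w ++ a :: u' ∧ v = w ++ b :: v' ∧ a < b

/-- Lyndon words: smaller (with a real deviation) than all proper nonempty suffixes. -/
def Lyn {α : Type} [LT α] (l : List α) : Prop :=
  l ≠ [] ∧ ∀ u v : List α, u ≠ [] → v ≠ [] → l = u ++ v → Lt l v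

/-- the words of length `n` in `N` -/
def lev {α : Type} (N : Set (List α)) (n : ℕ) : Set (List α) := {w | w ∈ N ∧ w.length = n}

/-- factorial languages -/
def Fac {α : Type} (N : Set (List α)) : Prop := ∀ u v w : List α, u ++ v ++ w ∈ N → v ∈ N

/-- words of `N` without factor `w` -/
def avoid {α : Type} (N : Set (List α)) (w : List α) : Set (List α) := {u | u ∈ N ∧ ¬ w <:+: u}

/-- prefix of length `n` of an infinite word -/
def pre {α : Type} (ξ : ℕ → α) (n : ℕ) : List α := (List.range n).map ξ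

/-- no nonempty suffix of `u` is a prefix of `ξ` -/
def NoSuf {α : Type} (ξ : ℕ → α) (u : List α) : Prop :=
  ∀ y : List α, y ≠ [] → y <:+ u → y ≠ pre ξ y.length

/-- valid blocks of level at least `L` -/
def Valid {α : Type} (ξ : ℕ → α) (L : ℕ) (l : List α) : Prop :=
  NoSuf ξ l ∧ ∃ K : ℕ, L ≤ K ∧ pre ξ K <+: l ∧ ∀ y : List α, y <:+ l → y ≠ l → ¬ pre ξ K <+: y

/-- hierarchical richness -/
def Rich {d : ℕ} (c : ℝ) (N : Set (List (Fin d))) :
    List (ℕ × ℕ) → List (Fin d) → List (List (Fin d)) → Prop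
  | [], v, _ => v ∈ N
  | (I :: Is), v, prev => ∃ t, I.1 ≤ t ∧ t ≤ I.2 ∧ ∃ S : Finset (List (Fin d)),
      c ^ t ≤ (S.card : ℝ) ∧ ∀ l ∈ S, l.length = t ∧ Lyn l ∧ (∀ l' ∈ prev, Lt l l') ∧
        Rich c N Is (l ++ v) (l :: prev)

/-- the intervals are separated according to `Ψ` -/
def Sep (Ψ : List (ℕ × ℕ) → ℕ) : List (ℕ × ℕ) → List (ℕ × ℕ) → Prop
  | _, [] => True
  | P, (I :: R) => Ψ P ≤ I.1 ∧ I.1 ≤ I.2 ∧ Sep Ψ (P ++ [I]) R

/-! ### Filtered algebras -/

/-- a multiplicative filtration -/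
structure MFilt (p : ℕ) (A : Type) [Ring A] [Algebra (ZMod p) A] where
  J : ℕ → Submodule (ZMod p) A
  anti : ∀ {i j : ℕ}, i ≤ j → J j ≤ J i
  zero : J 0 = ⊤
  mul_mem : ∀ {i j : ℕ} {a b : A}, a ∈ J i → b ∈ J j → a * b ∈ J (i + j)

variable {p : ℕ} {A : Type} [Ring A] [Algebra (ZMod p) A] {G : Type} [Group G]

/-- the dimension subgroups -/
def DD (F : MFilt p A) (ι : G →* A) (t : ℕ) : Subgroup G where
  carrier := {g | ι g - 1 ∈ F.J t}
  one_mem' := by simp
  mul_mem' := by
    intro a b ha hb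
    simp only [Set.mem_setOf_eq] at *
    have h : ι (a * b) - 1 = (ι a - 1) * ι b + (ι b - 1) := by
      rw [map_mul]; noncomm_ring
    rw [h]
    refine Submodule.add_mem _ ?_ hb
    have := F.mul_mem (i := t) (j := 0) ha (b := ι b) (by rw [F.zero]; trivial)
    simpa using this
  inv_mem' := by
    intro a ha
    simp only [Set.mem_setOf_eq] at *
    have h : ι a⁻¹ - 1 = -(ι a⁻¹ * (ι a - 1)) := by
      have : ι a⁻¹ * ι a = 1 := by rw [← map_mul]; simp
      rw [mul_sub, this]; noncomm_ring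
    rw [h]
    refine Submodule.neg_mem _ ?_
    have := F.mul_mem (i := 0) (j := t) (a := ι a⁻¹) (by rw [F.zero]; trivial) ha
    simpa using this

/-- dimension subgroups of `G × G` -/
def D2 (F : MFilt p A) (ι : G →* A) (t : ℕ) : Subgroup (G × G) := (DD F ι t).prod (DD F ι t)

/-- the two embeddings of `G` in `G × G` -/
def emb (z : Bool) : G →* G × G := if z then MonoidHom.inl G G else MonoidHom.inr G G

/-- coordinates minus one -/
def co (ι : G →* A) (z : Bool) (P : G × G) : A := ι (if z then P.1 else P.2) - 1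

/-- monomials -/
def mon (ι : G →* A) (ζ : List Bool) (P : G × G) : A := (ζ.map (fun z => co ι z P)).prod

/-- words of length `n` in two letters -/
def wordsEq : ℕ → Finset (List Bool)
  | 0 => {[]}
  | (n + 1) => (wordsEq n).image (List.cons true) ∪ (wordsEq n).image (List.cons false)

/-- words of length less than `n` in two letters -/
def wordsLT (n : ℕ) : Finset (List Bool) := (Finset.range n).biUnion wordsEq

/-- truncated evaluation of a power series -/
def evW (ι : G →* A) (n : ℕ) (W : List Bool → ZMod p) (P : G × G) : A :=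
  ∑ ζ ∈ wordsLT n, W ζ • mon ι ζ P

/-- difference operator -/
def Dl (γ : G × G) (Φ : G × G → A) : G × G → A := fun P => Φ (P * γ) - Φ P

/-- iterated difference operator, `TT [γ₁, …, γₖ] = Dl γ₁ ∘ … ∘ Dl γₖ` -/
def TT (gs : List (G × G)) (Φ : G × G → A) : G × G → A := gs.foldr Dl Φ

/-- functions of order `e + s q` -/
def Ocl (F : MFilt p A) (ι : G →* A) (s e q : ℕ) (Φ : G × G → A) : Prop :=
  ∀ gs : List ((G × G) × ℕ), (∀ x ∈ gs, s ≤ x.2 ∧ x.1 ∈ D2 F ι x.2) → ∀ P ∈ D2 F ι s,
    TT (gs.map Prod.fst) Φ P ∈ F.J (e + (gs.map Prod.snd).sum + s * (q - gs.length))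

/-- parameters of the hierarchical vanishing: type, interval, codimension -/
structure Par where
  z : Bool
  a : ℕ
  b : ℕ
  κ : ℕ → ℕ

/-- scaling the codimensions -/
def Par.sc (k : ℕ) (x : Par) : Par := ⟨x.z, x.a, x.b, fun t => k * x.κ t⟩

/-- hierarchical vanishing -/
def HV (F : MFilt p A) (ι : G →* A) : List Par → (List (G × G) → A) → ℕ → Prop
  | [], c, T => c [] ∈ F.J T
  | (x :: ps), c, T => ∀ t, x.a ≤ t → t ≤ x.b → ∃ H : Subgroup G, H ≤ DD F ι t ∧
      H.relIndex (DD F ι t) ≠ 0 ∧ H.relIndex (DD F ι t) ≤ p ^ (x.κ t) ∧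
      ∀ g ∈ H, HV F ι ps (fun gs => c (emb x.z g :: gs)) (T + t)

/-- negligible cochains -/
def Neg (F : MFilt p A) (ι : G →* A) : List Par → (List (G × G) → A) → ℕ → Prop
  | [], c, T => c [] ∈ F.J T
  | (x :: ps), c, T => ∀ t, x.a ≤ t → t ≤ x.b → ∀ g ∈ DD F ι t,
      Neg F ι ps (fun gs => c (emb x.z g :: gs)) (T + t)

/-- evaluation of words in `d` letters -/
def evX {d : ℕ} (X : Fin d → A) (w : List (Fin d)) : A := (w.map X).prod

/-- span of the larger words of the same length, plus higher order terms -/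
def Up {d : ℕ} (F : MFilt p A) (X : Fin d → A) (w : List (Fin d)) : Submodule (ZMod p) A :=
  Submodule.span (ZMod p) {x | ∃ w', w'.length = w.length ∧ Lt w w' ∧ x = evX X w'} ⊔ F.J (w.length + 1)

/-- normal words -/
def Nor {d : ℕ} (F : MFilt p A) (X : Fin d → A) : Set (List (Fin d)) := {w | evX X w ∉ Up F X w}

/-- `g` has leading term `β l` -/
def Lead {d : ℕ} (F : MFilt p A) (ι : G →* A) (X : Fin d → A) (g : G) (l : List (Fin d)) (β : ZMod p) :
    Prop := β ≠ 0 ∧ ι g - 1 - β • evX X l ∈ Up F X l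

/-- blocks: type, group element, word, coefficient -/
structure Blk (G : Type) (d : ℕ) (p : ℕ) where
  z : Bool
  g : G
  l : List (Fin d)
  β : ZMod p

end Pool.Agent.Helper90.EG
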