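import Pool.Agent.Helper90.EG.WBase

set_option autoImplicit false

namespace Pool.Agent.Helper90.EG
namespace EGF

open MonoidAlgebra

variable {p : ℕ}

/-- augmentation space of a group algebra -/
noncomputable def au (p : ℕ) (Q : Type) [Group Q] : Submodule (ZMod p) (MonoidAlgebra (ZMod p) Q) :=
  Submodule.span (ZMod p) (Set.range (fun g : Q => MonoidAlgebra.of (ZMod p) Q g - 1))

/-- noncommutative polynomials in two variables -/
abbrev Poly (p : ℕ) := MonoidAlgebra (ZMod p) (FreeMonoid Bool)

/-- evaluation -/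
noncomputable def evl {R : Type} [Ring R] [Algebra (ZMod p) R] (v : Bool → R) : Poly p →ₐ[ZMod p] R :=
  MonoidAlgebra.lift (ZMod p) R (FreeMonoid Bool) (FreeMonoid.lift v)

theorem evl_comp {R R' : Type} [Ring R] [Algebra (ZMod p) R] [Ring R'] [Algebra (ZMod p) R'] (v : Bool → R)
    (ψ : R →ₐ[ZMod p] R') (f : Poly p) : ψ (evl v f) = evl (fun z => ψ (v z)) f := by
  induction f using MonoidAlgebra.induction_on with
  | of g =>
    unfold evl
    rw [MonoidAlgebra.lift_of, MonoidAlgebra.lift_of]
    induction g using FreeMonoid.inductionOn' with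
    | one => simp
    | of_mul x xs ih => rw [map_mul, map_mul, map_mul, ih]; simp
  | add a b ha hb => rw [map_add, map_add, map_add, ha, hb]
  | smul c a ha => rw [map_smul, map_smul, map_smul, ha]

/-- `1 + X` products -/
noncomputable def mag (p : ℕ) (ζ : List Bool) : Poly p :=
  (ζ.map (fun z => 1 + MonoidAlgebra.of (ZMod p) (FreeMonoid Bool) (FreeMonoid.of z))).prod

theorem evl_mag {Q : Type} [Group Q] (q : Bool → Q) (ζ : List Bool) :
    evl (p := p) (fun z => MonoidAlgebra.of (ZMod p) Q (q z) - 1) (mag p ζ) =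
      MonoidAlgebra.of (ZMod p) Q (ζ.map q).prod := by
  induction ζ with
  | nil =>
    have : mag p [] = 1 := by simp [mag]
    rw [this, map_one]; simp only [List.map_nil, List.prod_nil, map_one]
  | cons z ζ ih =>
    have : mag p (z :: ζ) = (1 + MonoidAlgebra.of (ZMod p) (FreeMonoid Bool) (FreeMonoid.of z)) * mag p ζ := by
      simp [mag]
    rw [this, map_mul, ih]
    have h2 : evl (p := p) (fun z => MonoidAlgebra.of (ZMod p) Q (q z) - 1)
        (1 + MonoidAlgebra.of (ZMod p) (FreeMonoid Bool) (FreeMonoid.of z)) = MonoidAlgebra.of (ZMod p) Q (q z) := by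
      rw [map_add, map_one]
      have : evl (p := p) (fun z => MonoidAlgebra.of (ZMod p) Q (q z) - 1)
        (MonoidAlgebra.of (ZMod p) (FreeMonoid Bool) (FreeMonoid.of z)) = MonoidAlgebra.of (ZMod p) Q (q z) - 1 := by
        unfold evl
        rw [MonoidAlgebra.lift_of]
        simp only [FreeMonoid.lift_eval_of]
      rw [this]; abel
    rw [h2, ← map_mul]; simp

/-- the evaluation of a polynomial without terms of degree `< n` is in the `n`th power of the augmentation space -/
theorem evl_mem {Q : Type} [Group Q] (q : Bool → Q) (n : ℕ) (f : Poly p)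
    (hf : ∀ ζ : FreeMonoid Bool, ζ.length < n → f.coeff ζ = 0) 
    (hpow : ∀ m, n ≤ m → au p Q ^ m ≤ au p Q ^ n) :
    evl (p := p) (fun z => MonoidAlgebra.of (ZMod p) Q (q z) - 1) f ∈ au p Q ^ n := by
  have h1 : ∀ ζ : FreeMonoid Bool, FreeMonoid.lift (fun z => MonoidAlgebra.of (ZMod p) Q (q z) - 1) ζ ∈
      au p Q ^ ζ.length := by
    intro ζ
    induction ζ using FreeMonoid.inductionOn' with
    | one => simp only [map_one, FreeMonoid.length_one, pow_zero]; exact Submodule.one_le.1 le_rfl
    | of_mul x xs ih =>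
      rw [map_mul, FreeMonoid.lift_eval_of, FreeMonoid.length_mul, FreeMonoid.length_of, add_comm, pow_succ']
      exact Submodule.mul_mem_mul (Submodule.subset_span ⟨_, rfl⟩) ih
  unfold evl
  rw [MonoidAlgebra.lift_apply]
  refine Submodule.sum_mem _ ?_
  intro ζ hζ
  refine Submodule.smul_mem _ _ ?_
  by_cases h : ζ.length < n
  · exact absurd (hf ζ h) (by simpa using hζ)
  · exact hpow _ (by omega) (h1 ζ)

theorem au_mul_mem {Q : Type} [Group Q] (a x : MonoidAlgebra (ZMod p) Q) (hx : x ∈ au p Q) :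
    a * x ∈ au p Q := by
  induction a using MonoidAlgebra.induction_on with
  | of g =>
    induction hx using Submodule.span_induction with
    | mem x hx =>
      obtain ⟨h, rfl⟩ := hx
      have : MonoidAlgebra.of (ZMod p) Q g * (MonoidAlgebra.of (ZMod p) Q h - 1) =
        (MonoidAlgebra.of (ZMod p) Q (g * h) - 1) - (MonoidAlgebra.of (ZMod p) Q g - 1) := by
        rw [map_mul]; noncomm_ring
      simp only
      rw [this]
      exact Submodule.sub_mem _ (Submodule.subset_span ⟨_, rfl⟩) (Submodule.subset_span ⟨_, rfl⟩)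
    | zero => simp
    | add x y _ _ h1 h2 => rw [mul_add]; exact Submodule.add_mem _ h1 h2
    | smul c x _ h => rw [mul_smul_comm]; exact Submodule.smul_mem _ _ h
  | add a b ha hb => rw [add_mul]; exact Submodule.add_mem _ ha hb
  | smul c a ha => rw [smul_mul_assoc]; exact Submodule.smul_mem _ _ ha

theorem au_mul_le {Q : Type} [Group Q] : au p Q * au p Q ≤ au p Q := by
  rw [Submodule.mul_le]
  intro a _ b hb
  exact au_mul_mem a b hb

theorem au_pow_anti {Q : Type} [Group Q] (n : ℕ) (hn : 1 ≤ n) (m : ℕ) (h : n ≤ m) :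
    au p Q ^ m ≤ au p Q ^ n := by
  obtain ⟨k, rfl⟩ := Nat.exists_eq_add_of_le h
  clear h
  induction k with
  | zero => exact le_rfl
  | succ k ih =>
    refine le_trans ?_ ih
    obtain ⟨j, hj⟩ : ∃ j, n + k = j + 1 := ⟨n + k - 1, by omega⟩
    rw [← add_assoc, hj, pow_succ, pow_succ, mul_assoc]
    exact mul_le_mul_right au_mul_le (au p Q ^ j)


/-- part G4: the final homomorphism -/
theorem final_hom [Fact p.Prime] (G : Type) [Group G] [TopologicalSpace G] [IsTopologicalGroup G]
    [CompactSpace G] (q : Bool → G)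
    (hnil : ∀ (P : Type) [Group P] [Fintype P], (∃ k : ℕ, Fintype.card P = p ^ k) → ∃ k : ℕ, au p P ^ k = ⊥)
    (hinj : ∀ k : ℕ, ∃ U : Subgroup G, IsOpen (U : Set G) ∧ ∃ hU : U.Normal, ∀ f : Poly p,
      (∀ ζ : FreeMonoid Bool, ζ.length < k → f.coeff ζ = 0) → (∃ ζ : FreeMonoid Bool, ζ.length = k ∧ f.coeff ζ ≠ 0) →
      evl (p := p) (fun z => MonoidAlgebra.of (ZMod p) (G ⧸ U) (QuotientGroup.mk (q z)) - 1) f ≠ 0) :
    ∀ (P : Type) [Group P] [Fintype P], (∃ k : ℕ, Fintype.card P = p ^ k) →
        ∀ a b : P, ∃ f : (Subgroup.closure ({q true, q false} : Set G)).topologicalClosure →* P,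
          IsOpen (f.ker : Set (Subgroup.closure ({q true, q false} : Set G)).topologicalClosure) ∧
          (∀ z : (Subgroup.closure ({q true, q false} : Set G)).topologicalClosure, (z : G) = q true → f z = a) ∧
          (∀ z : (Subgroup.closure ({q true, q false} : Set G)).topologicalClosure, (z : G) = q false → f z = b) := by
  intro P _ _ hP a b
  obtain ⟨k, hk⟩ := hnil P hP
  -- one open normal subgroup for all degrees up to `k`
  have hU : ∃ U : Subgroup G, IsOpen (U : Set G) ∧ ∃ hU : U.Normal, ∀ f : Poly p,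
      evl (p := p) (fun z => MonoidAlgebra.of (ZMod p) (G ⧸ U) (QuotientGroup.mk (q z)) - 1) f = 0 →
      ∀ ζ : FreeMonoid Bool, ζ.length < k → f.coeff ζ = 0 := by
    choose U hUo hUn hUf using hinj
    have key : ∀ n : ℕ, ∃ V : Subgroup G, IsOpen (V : Set G) ∧ V.Normal ∧ ∀ j < n, V ≤ U j := by
      intro n
      induction n with
      | zero => exact ⟨⊤, isOpen_univ, inferInstance, fun j hj => absurd hj (by omega)⟩
      | succ n ih =>
        obtain ⟨V, h1, h2, h3⟩ := ih
        refine ⟨V ⊓ U n, h1.inter (hUo n), @Subgroup.normal_inf_normal _ _ _ _ h2 (hUn n), ?_⟩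
        intro j hj
        rcases Nat.lt_succ_iff_lt_or_eq.1 hj with h | rfl
        · exact inf_le_left.trans (h3 j h)
        · exact inf_le_right
    obtain ⟨V, hV1, hV2, hV3⟩ := key k
    refine ⟨V, hV1, hV2, ?_⟩
    intro f hf ζ hζ
    -- strong induction on the length
    by_contra hne
    have hex : ∃ n, ∃ ζ : FreeMonoid Bool, ζ.length = n ∧ f.coeff ζ ≠ 0 := ⟨_, ζ, rfl, hne⟩
    classical
    have hn := Nat.find_spec hex
    have hmin := fun m (hm : m < Nat.find hex) => Nat.find_min hex hm
    set n := Nat.find hex with hndef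
    have hnk : n < k := lt_of_le_of_lt (Nat.find_min' hex ⟨ζ, rfl, hne⟩) hζ
    have hz := hUf n f (fun η hη => by
      by_contra h
      exact hmin _ hη ⟨η, rfl, h⟩) hn
    apply hz
    -- transport
    have := hUn n
    let π : G ⧸ V →* G ⧸ U n := QuotientGroup.map V (U n) (MonoidHom.id G) (by simpa using hV3 n hnk)
    have hcomp := evl_comp (p := p) (fun z => MonoidAlgebra.of (ZMod p) (G ⧸ V) (QuotientGroup.mk (q z)) - 1)
      (MonoidAlgebra.mapDomainAlgHom (ZMod p) (ZMod p) π) f
    rw [hf, map_zero] at hcomp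
    rw [hcomp]
    congr 2
    funext z
    rw [map_sub, map_one]
    congr 1
    simp only [MonoidAlgebra.of_apply, MonoidAlgebra.mapDomainAlgHom_apply, MonoidAlgebra.mapDomain_single]
    rfl
  obtain ⟨U, hUo, hUn, hUf⟩ := hU
  have hmap : ∀ ζ : List Bool, (ζ.map (fun z => (QuotientGroup.mk (q z) : G ⧸ U))).prod =
      QuotientGroup.mk (ζ.map q).prod := by
    intro ζ
    induction ζ with
    | nil => simp
    | cons z ζ ih => simp [ih]
  have hword : ∀ ζ ζ' : List Bool, (QuotientGroup.mk (ζ.map q).prod : G ⧸ U) = QuotientGroup.mk (ζ'.map q).prod →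
      (ζ.map (fun z => if z then a else b)).prod = (ζ'.map (fun z => if z then a else b)).prod := by
    intro ζ ζ' h
    have h1 := hUf (mag p ζ - mag p ζ') (by
      rw [map_sub, evl_mag (fun z => (QuotientGroup.mk (q z) : G ⧸ U)), evl_mag (fun z => (QuotientGroup.mk (q z) : G ⧸ U)),
        hmap, hmap, h, sub_self])
    have h2 := evl_mem (p := p) (fun z => if z then a else b) k _ h1 (fun m hm => by
      rcases Nat.eq_zero_or_pos k with h0 | h0
      · subst h0
        have h3 : (1 : MonoidAlgebra (ZMod p) P) ∈ au p P ^ 0 := by rw [pow_zero]; exact Submodule.one_le.1 le_rfl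
        rw [hk, Submodule.mem_bot] at h3
        exact absurd h3 one_ne_zero
      · exact au_pow_anti k h0 m hm)
    rw [hk, Submodule.mem_bot, map_sub, evl_mag, evl_mag, sub_eq_zero] at h2
    exact MonoidAlgebra.of_injective h2
  set S : Subgroup G := Subgroup.closure ({q true, q false} : Set G) with hS
  -- every element of the closure is congruent to a positive word
  have hpos : ∀ g ∈ S.topologicalClosure, ∃ ζ : List Bool, (QuotientGroup.mk (ζ.map q).prod : G ⧸ U) = QuotientGroup.mk g := by
    intro g hg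
    have h1 : ∃ g' ∈ S, g⁻¹ * g' ∈ U := by
      have h2 : g ∈ closure (S : Set G) := hg
      rw [mem_closure_iff] at h2
      obtain ⟨x, hx1, hx2⟩ := h2 ((fun x => g⁻¹ * x) ⁻¹' (U : Set G)) (hUo.preimage (continuous_const_mul g⁻¹)) (by simp)
      exact ⟨x, hx2, hx1⟩
    obtain ⟨g', hg', hgg⟩ := h1
    have : Finite (G ⧸ U) := by
      have := U.quotient_finite_of_isOpen hUo
      exact this
    have h3 : (QuotientGroup.mk g' : G ⧸ U) ∈ Submonoid.closure (Set.range (fun z => (QuotientGroup.mk (q z) : G ⧸ U))) := by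
      rw [← Subgroup.closure_toSubmonoid_of_finite]
      change (QuotientGroup.mk g' : G ⧸ U) ∈ Subgroup.closure (Set.range (fun z => (QuotientGroup.mk (q z) : G ⧸ U)))
      have h4 : S ≤ (Subgroup.closure (Set.range (fun z => (QuotientGroup.mk (q z) : G ⧸ U)))).comap (QuotientGroup.mk' U) := by
        rw [hS, Subgroup.closure_le]
        rintro x (rfl | rfl)
        · exact Subgroup.subset_closure ⟨true, rfl⟩
        · exact Subgroup.subset_closure ⟨false, rfl⟩
      exact h4 hg'
    obtain ⟨l, hl1, hl2⟩ := Submonoid.exists_list_of_mem_closure h3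
    have h5 : ∃ ζ : List Bool, l = ζ.map (fun z => (QuotientGroup.mk (q z) : G ⧸ U)) := by
      clear hl2
      induction l with
      | nil => exact ⟨[], rfl⟩
      | cons x l ih =>
        obtain ⟨ζ, hζ⟩ := ih (fun y hy => hl1 y (List.mem_cons_of_mem _ hy))
        obtain ⟨z, hz⟩ := hl1 x (List.mem_cons_self)
        exact ⟨z :: ζ, by simp [hζ, ← hz]⟩
    obtain ⟨ζ, hζ⟩ := h5
    refine ⟨ζ, ?_⟩
    rw [← hmap, ← hζ, hl2]
    exact (QuotientGroup.eq.2 hgg).symm
  choose! W hW using hpos
  let F : S.topologicalClosure →* P := MonoidHom.mk' (fun g => ((W g.1).map (fun z => if z then a else b)).prod) (by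
    intro g h
    rw [← List.prod_append, ← List.map_append]
    apply hword
    rw [hW _ (g * h).2, List.map_append, List.prod_append]
    simp [hW _ g.2, hW _ h.2])
  have hF : ∀ g : S.topologicalClosure, ∀ ζ : List Bool, (QuotientGroup.mk (ζ.map q).prod : G ⧸ U) = QuotientGroup.mk g.1 →
      F g = (ζ.map (fun z => if z then a else b)).prod := by
    intro g ζ h
    apply hword
    rw [hW _ g.2, h]
  refine ⟨F, ?_, ?_, ?_⟩
  · have h1 : U.subgroupOf S.topologicalClosure ≤ F.ker := by
      intro g hg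
      rw [MonoidHom.mem_ker, hF g []]
      · simp
      · rw [QuotientGroup.eq]
        have hg' : (g : G) ∈ U := hg
        simpa using hg'
    refine Subgroup.isOpen_mono h1 ?_
    exact hUo.preimage continuous_subtype_val
  · intro z hz
    rw [hF z [true] (by simp [hz])]; simp
  · intro z hz
    rw [hF z [false] (by simp [hz])]; simp


theorem au_pow_mul_mem {Q : Type} [Group Q] (n : ℕ) (hn : 1 ≤ n) (a x : MonoidAlgebra (ZMod p) Q)
    (hx : x ∈ au p Q ^ n) : a * x ∈ au p Q ^ n := by
  obtain ⟨j, rfl⟩ : ∃ j, n = j + 1 := ⟨n - 1, by omega⟩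
  rw [pow_succ'] at hx ⊢
  induction hx using Submodule.mul_induction_on' with
  | mem_mul_mem m hm n hn =>
    rw [← mul_assoc]; exact Submodule.mul_mem_mul (au_mul_mem a m hm) hn
  | add x _ y _ hx hy => rw [mul_add]; exact Submodule.add_mem _ hx hy

/-- the augmentation space of a finite `p`-group is nilpotent -/
theorem au_nil [Fact p.Prime] (P : Type) [Group P] [Fintype P] (hP : ∃ k : ℕ, Fintype.card P = p ^ k) :
    ∃ k : ℕ, au p P ^ k = ⊥ := by
  classical
  have hpg : IsPGroup p P := by
    obtain ⟨k, hk⟩ := hP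
    exact IsPGroup.of_card (n := k) (by rw [Nat.card_eq_fintype_card, hk])
  have : Module.Finite (ZMod p) (MonoidAlgebra (ZMod p) P) := by
    exact Module.Finite.equiv (MonoidAlgebra.coeffLinearEquiv (ZMod p) : MonoidAlgebra (ZMod p) P ≃ₗ[ZMod p] _).symm
  -- stabilisation
  have hstab : ∃ n, 1 ≤ n ∧ au p P ^ (n + 1) = au p P ^ n := by
    by_contra hcon
    push Not at hcon
    have h1 : ∀ n, 1 ≤ n → Module.finrank (ZMod p) ↥(au p P ^ (n + 1)) < Module.finrank (ZMod p) ↥(au p P ^ n) := by
      intro n hn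
      exact Submodule.finrank_lt_finrank_of_lt (lt_of_le_of_ne (au_pow_anti n hn _ (by omega)) (hcon n hn))
    have h2 : ∀ n, 1 ≤ n → Module.finrank (ZMod p) ↥(au p P ^ n) + n ≤ Module.finrank (ZMod p) ↥(au p P ^ 1) + 1 := by
      intro n hn
      induction n, hn using Nat.le_induction with
      | base => exact le_rfl
      | succ n hn ih => have := h1 n hn; omega
    have := h2 (Module.finrank (ZMod p) ↥(au p P ^ 1) + 2) (by omega)
    omega
  obtain ⟨n, hn, hst⟩ := hstab
  refine ⟨n, ?_⟩
  by_contra hne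
  set M := au p P ^ n with hM
  let L : P → (↥M →ₗ[ZMod p] ↥M) := fun g =>
    { toFun := fun m => ⟨MonoidAlgebra.of (ZMod p) P g * m.1, au_pow_mul_mem n hn _ _ m.2⟩
      map_add' := fun a b => by ext1; simp [mul_add]
      map_smul' := fun c a => by ext1; simp }
  have hL1 : L 1 = LinearMap.id := by
    ext1 m; ext1
    change MonoidAlgebra.of (ZMod p) P 1 * m.1 = m.1
    rw [map_one, one_mul]
  have hLmul : ∀ g h, L (g * h) = (L g).comp (L h) := by
    intro g h
    ext1 m; ext1; simp only [L, LinearMap.coe_mk, AddHom.coe_mk, LinearMap.comp_apply, map_mul, mul_assoc]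
  let act : MulAction P (Module.Dual (ZMod p) ↥M) :=
    { smul := fun g φ => φ.comp (L g⁻¹)
      one_smul := fun φ => by
        change φ.comp (L 1⁻¹) = φ
        rw [inv_one, hL1]; rfl
      mul_smul := fun g h φ => by
        change φ.comp (L (g * h)⁻¹) = (φ.comp (L h⁻¹)).comp (L g⁻¹)
        rw [mul_inv_rev, hLmul]; rfl }
  have hfin : Finite (Module.Dual (ZMod p) ↥M) := Module.finite_of_finite (ZMod p)
  have hcard : p ∣ Nat.card (Module.Dual (ZMod p) ↥M) := by
    rw [Module.natCard_eq_pow_finrank (K := ZMod p), Nat.card_zmod, Subspace.dual_finrank_eq]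
    refine dvd_pow_self p ?_
    rw [Submodule.finrank_eq_zero.ne]
    exact hne
  have h0 : (0 : Module.Dual (ZMod p) ↥M) ∈ MulAction.fixedPoints P (Module.Dual (ZMod p) ↥M) := by
    intro g
    change (0 : Module.Dual (ZMod p) ↥M).comp (L g⁻¹) = 0
    simp
  obtain ⟨φ, hφ, hφ0⟩ := hpg.exists_fixed_point_of_prime_dvd_card_of_fixed_point _ hcard h0
  apply hφ0
  have hinv : ∀ g m, φ (L g m) = φ m := by
    intro g m
    have h1 : φ.comp (L g⁻¹⁻¹) = φ := hφ g⁻¹
    rw [inv_inv] at h1
    exact LinearMap.congr_fun h1 m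
  have hkill : ∀ x (hx : x ∈ M), φ ⟨x, hx⟩ = 0 := by
    intro x hx
    have hx' : x ∈ au p P * M := by rw [hM, ← pow_succ', hst]; exact hx
    have h3 : ∀ x ∈ au p P * M, ∃ hx : x ∈ M, φ ⟨x, hx⟩ = 0 := by
      intro x hx
      induction hx using Submodule.mul_induction_on' with
      | mem_mul_mem a ha m hm =>
        induction ha using Submodule.span_induction with
        | mem a ha =>
          obtain ⟨g, rfl⟩ := ha
          have h4 : (MonoidAlgebra.of (ZMod p) P g - 1) * m ∈ M := au_pow_mul_mem n hn _ _ hm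
          refine ⟨h4, ?_⟩
          have h5 : (⟨(MonoidAlgebra.of (ZMod p) P g - 1) * m, h4⟩ : ↥M) = L g ⟨m, hm⟩ - ⟨m, hm⟩ := by
            ext1; simp [L, sub_mul]
          rw [h5, map_sub, hinv, sub_self]
        | zero =>
          refine ⟨by simp, ?_⟩
          have : (⟨0 * m, by simp⟩ : ↥M) = 0 := by ext1; simp
          rw [this, map_zero]
        | add x y _ _ h1 h2 =>
          obtain ⟨h1a, h1b⟩ := h1
          obtain ⟨h2a, h2b⟩ := h2
          refine ⟨by rw [add_mul]; exact Submodule.add_mem _ h1a h2a, ?_⟩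
          have : (⟨(x + y) * m, by rw [add_mul]; exact Submodule.add_mem _ h1a h2a⟩ : ↥M) = ⟨x * m, h1a⟩ + ⟨y * m, h2a⟩ := by
            ext1; simp [add_mul]
          rw [this, map_add, h1b, h2b, add_zero]
        | smul c x _ h1 =>
          obtain ⟨h1a, h1b⟩ := h1
          refine ⟨by rw [smul_mul_assoc]; exact Submodule.smul_mem _ _ h1a, ?_⟩
          have : (⟨(c • x) * m, by rw [smul_mul_assoc]; exact Submodule.smul_mem _ _ h1a⟩ : ↥M) = c • ⟨x * m, h1a⟩ := by
            ext1; simp
          rw [this, map_smul, h1b, smul_zero]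
      | add x _ y _ hx hy =>
        obtain ⟨h1a, h1b⟩ := hx
        obtain ⟨h2a, h2b⟩ := hy
        refine ⟨Submodule.add_mem _ h1a h2a, ?_⟩
        have : (⟨x + y, Submodule.add_mem _ h1a h2a⟩ : ↥M) = ⟨x, h1a⟩ + ⟨y, h2a⟩ := rfl
        rw [this, map_add, h1b, h2b, add_zero]
    obtain ⟨_, h⟩ := h3 x hx'
    exact h
  ext m
  rw [hkill m.1 m.2]; rfl

end EGF
end Pool.Agent.Helper90.EG
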