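import Pool.Agent.Helper90.EG.FinalHom

set_option autoImplicit false

namespace Pool.Agent.Helper90.EG
namespace EGF

open MonoidAlgebra

variable {p : ℕ}

/-- the `Xᵢ` -/
noncomputable def XX (p : ℕ) {Q : Type} [Group Q] {d : ℕ} (q : Fin d → Q) : Fin d → MonoidAlgebra (ZMod p) Q :=
  fun i => MonoidAlgebra.of (ZMod p) Q (q i) - 1

/-- span of the words of length `n` -/
noncomputable def sw (p : ℕ) {Q : Type} [Group Q] {d : ℕ} (q : Fin d → Q) (n : ℕ) :
    Submodule (ZMod p) (MonoidAlgebra (ZMod p) Q) :=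
  Submodule.span (ZMod p) {x | ∃ w : List (Fin d), w.length = n ∧ x = evX (XX p q) w}

/-- larger words -/
noncomputable def UpQ (p : ℕ) {Q : Type} [Group Q] {d : ℕ} (q : Fin d → Q) (w : List (Fin d)) :
    Submodule (ZMod p) (MonoidAlgebra (ZMod p) Q) :=
  Submodule.span (ZMod p) {x | ∃ w', w'.length = w.length ∧ Lt w w' ∧ x = evX (XX p q) w'} ⊔ au p Q ^ (w.length + 1)

/-- normal words in the quotient `Q` -/
def NorQ (p : ℕ) {Q : Type} [Group Q] {d : ℕ} (q : Fin d → Q) : Set (List (Fin d)) :=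
  {w | evX (XX p q) w ∉ UpQ p q w}

theorem au_le {Q : Type} [Group Q] {d : ℕ} (q : Fin d → Q) (hq : Subgroup.closure (Set.range q) = ⊤) :
    au p Q ≤ sw p q 1 ⊔ au p Q ^ 2 := by
  unfold au
  rw [Submodule.span_le]
  rintro x ⟨g, rfl⟩
  have hg : g ∈ Subgroup.closure (Set.range q) := by rw [hq]; trivial
  simp only [SetLike.mem_coe]
  change MonoidAlgebra.of (ZMod p) Q g - 1 ∈ sw p q 1 ⊔ au p Q ^ 2
  have hau : ∀ g : Q, MonoidAlgebra.of (ZMod p) Q g - 1 ∈ au p Q := fun g => Submodule.subset_span ⟨g, rfl⟩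
  have hau2 : ∀ g h : Q, (MonoidAlgebra.of (ZMod p) Q g - 1) * (MonoidAlgebra.of (ZMod p) Q h - 1) ∈ sw p q 1 ⊔ au p Q ^ 2 := by
    intro g h
    refine Submodule.mem_sup_right ?_
    rw [pow_two]
    exact Submodule.mul_mem_mul (hau g) (hau h)
  induction hg using Subgroup.closure_induction with
  | mem x hx =>
    obtain ⟨i, rfl⟩ := hx
    refine Submodule.mem_sup_left (Submodule.subset_span ⟨[i], rfl, ?_⟩)
    simp [evX, XX]
  | one => rw [map_one, sub_self]; exact Submodule.zero_mem _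
  | mul x y _ _ h1 h2 =>
    have : MonoidAlgebra.of (ZMod p) Q (x * y) - 1 = (MonoidAlgebra.of (ZMod p) Q x - 1) + (MonoidAlgebra.of (ZMod p) Q y - 1) +
      (MonoidAlgebra.of (ZMod p) Q x - 1) * (MonoidAlgebra.of (ZMod p) Q y - 1) := by
      rw [map_mul]; noncomm_ring
    rw [this]
    exact Submodule.add_mem _ (Submodule.add_mem _ h1 h2) (hau2 _ _)
  | inv x _ h1 =>
    have h3 : MonoidAlgebra.of (ZMod p) Q x⁻¹ * MonoidAlgebra.of (ZMod p) Q x = 1 := by rw [← map_mul, inv_mul_cancel, map_one]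
    have : MonoidAlgebra.of (ZMod p) Q x⁻¹ - 1 = -(MonoidAlgebra.of (ZMod p) Q x - 1) -
      (MonoidAlgebra.of (ZMod p) Q x⁻¹ - 1) * (MonoidAlgebra.of (ZMod p) Q x - 1) := by
      rw [sub_mul, mul_sub, h3]; noncomm_ring
    rw [this]
    exact Submodule.sub_mem _ (Submodule.neg_mem _ h1) (hau2 _ _)

theorem sw_mul {Q : Type} [Group Q] {d : ℕ} (q : Fin d → Q) (m n : ℕ) : sw p q m * sw p q n ≤ sw p q (m + n) := by
  unfold sw
  rw [Submodule.span_mul_span, Submodule.span_le]
  rintro x ⟨a, ⟨w, hw, rfl⟩, b, ⟨w', hw', rfl⟩, rfl⟩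
  refine Submodule.subset_span ⟨w ++ w', by simp [hw, hw'], ?_⟩
  simp [evX]

theorem sw_one_le {Q : Type} [Group Q] {d : ℕ} (q : Fin d → Q) (n : ℕ) : sw p q n ≤ au p Q ^ n := by
  unfold sw
  rw [Submodule.span_le]
  rintro x ⟨w, rfl, rfl⟩
  induction w with
  | nil => simp only [evX, List.map_nil, List.prod_nil, List.length_nil, pow_zero]; exact Submodule.one_le.1 le_rfl
  | cons a w ih =>
    simp only [evX, List.map_cons, List.prod_cons, List.length_cons, pow_succ'] at ih ⊢
    exact Submodule.mul_mem_mul (Submodule.subset_span ⟨_, rfl⟩) ih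

theorem au_pow_le {Q : Type} [Group Q] {d : ℕ} (q : Fin d → Q) (hq : Subgroup.closure (Set.range q) = ⊤) (n : ℕ)
    (hn : 1 ≤ n) : au p Q ^ n ≤ sw p q n ⊔ au p Q ^ (n + 1) := by
  induction n, hn using Nat.le_induction with
  | base => simpa using au_le q hq
  | succ n hn ih =>
    have h1 : au p Q ^ (n + 1) ≤ (sw p q 1 ⊔ au p Q ^ 2) * (sw p q n ⊔ au p Q ^ (n + 1)) := by
      calc au p Q ^ (n + 1) = au p Q * au p Q ^ n := pow_succ' _ _
        _ ≤ _ := mul_le_mul' (au_le q hq) ih
    refine h1.trans ?_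
    rw [Submodule.sup_mul, Submodule.mul_sup, Submodule.mul_sup]
    refine sup_le (sup_le ?_ ?_) (sup_le ?_ ?_)
    · refine (sw_mul q 1 n).trans ?_
      rw [add_comm]; exact le_sup_left
    · refine le_sup_of_le_right ?_
      refine (mul_le_mul' (sw_one_le q 1) le_rfl).trans ?_
      rw [← pow_add]; exact le_of_eq (by ring_nf)
    · refine le_sup_of_le_right ?_
      refine (mul_le_mul' le_rfl (sw_one_le q n)).trans ?_
      rw [← pow_add]; exact le_of_eq (by ring_nf)
    · refine le_sup_of_le_right ?_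
      rw [← pow_add]
      exact au_pow_anti _ (by omega) _ (by omega)


theorem top_le {Q : Type} [Group Q] {d : ℕ} (q : Fin d → Q) (hq : Subgroup.closure (Set.range q) = ⊤) (n : ℕ)
    (hn : 1 ≤ n) : (⊤ : Submodule (ZMod p) (MonoidAlgebra (ZMod p) Q)) ≤
      Submodule.span (ZMod p) {x | ∃ w : List (Fin d), w.length < n ∧ x = evX (XX p q) w} ⊔ au p Q ^ n := by
  induction n, hn using Nat.le_induction with
  | base =>
    intro x _
    induction x using MonoidAlgebra.induction_on with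
    | of g =>
      have : MonoidAlgebra.of (ZMod p) Q g = 1 + (MonoidAlgebra.of (ZMod p) Q g - 1) := by abel
      rw [this]
      refine Submodule.add_mem _ (Submodule.mem_sup_left (Submodule.subset_span ⟨[], by simp, by simp [evX]⟩)) ?_
      refine Submodule.mem_sup_right ?_
      rw [pow_one]
      exact Submodule.subset_span ⟨g, rfl⟩
    | add a b ha hb => exact Submodule.add_mem _ (ha trivial) (hb trivial)
    | smul c a ha => exact Submodule.smul_mem _ _ (ha trivial)
  | succ n hn ih =>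
    refine ih.trans (sup_le ?_ ((au_pow_le q hq n hn).trans (sup_le ?_ le_sup_right)))
    · refine le_sup_of_le_left (Submodule.span_mono ?_)
      rintro x ⟨w, hw, rfl⟩
      exact ⟨w, by omega, rfl⟩
    · refine le_sup_of_le_left (Submodule.span_mono ?_)
      rintro x ⟨w, hw, rfl⟩
      exact ⟨w, by omega, rfl⟩

theorem finite_len {d : ℕ} (n : ℕ) : {w : List (Fin d) | w.length = n}.Finite := List.finite_length_eq (Fin d) n

/-- uniform bound for the codimensions -/
theorem finrank_bound {Q : Type} [Group Q] {d : ℕ} (q : Fin d → Q) (hq : Subgroup.closure (Set.range q) = ⊤) (n : ℕ)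
    (hn : 1 ≤ n) [Fact p.Prime] : Module.finrank (ZMod p) (MonoidAlgebra (ZMod p) Q ⧸ au p Q ^ n) ≤
      {w : List (Fin d) | w.length < n}.ncard := by
  have hfin : {w : List (Fin d) | w.length < n}.Finite := List.finite_length_lt (Fin d) n
  set S : Submodule (ZMod p) (MonoidAlgebra (ZMod p) Q) :=
    Submodule.span (ZMod p) ((fun w => evX (XX p q) w) '' {w : List (Fin d) | w.length < n}) with hS
  have hfinS : ((fun w => evX (XX p q) w) '' {w : List (Fin d) | w.length < n}).Finite := hfin.image _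
  have h1 : (⊤ : Submodule (ZMod p) (MonoidAlgebra (ZMod p) Q ⧸ au p Q ^ n)) ≤ S.map (au p Q ^ n).mkQ := by
    intro y _
    obtain ⟨x, rfl⟩ := Submodule.mkQ_surjective _ y
    have hx := top_le (p := p) q hq n hn (Submodule.mem_top : x ∈ ⊤)
    rw [Submodule.mem_sup] at hx
    obtain ⟨a, ha, b, hb, rfl⟩ := hx
    refine ⟨a, ?_, ?_⟩
    · rw [hS]
      refine Submodule.span_mono ?_ ha
      rintro x ⟨w, hw, rfl⟩
      exact ⟨w, hw, rfl⟩
    · rw [map_add]
      have : (au p Q ^ n).mkQ b = 0 := by simpa using hb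
      rw [this, add_zero]
  have h2 : S.map (au p Q ^ n).mkQ = ⊤ := le_antisymm le_top h1
  have h3 : Module.finrank (ZMod p) ↥(S.map (au p Q ^ n).mkQ) ≤ Module.finrank (ZMod p) ↥S := by
    have : Module.Finite (ZMod p) ↥S := by
      rw [hS]; exact Module.Finite.span_of_finite _ hfinS
    exact Submodule.finrank_map_le _ _
  rw [h2, finrank_top] at h3
  refine h3.trans ?_
  have h4 : Module.finrank (ZMod p) ↥S ≤ ((fun w => evX (XX p q) w) '' {w : List (Fin d) | w.length < n}).ncard := by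
    rw [hS]
    have := finrank_span_finset_le_card (R := ZMod p) hfinS.toFinset
    rw [Set.ncard_eq_toFinset_card _ hfinS]
    unfold Set.finrank at this
    rwa [Set.Finite.coe_toFinset] at this
  exact h4.trans (Set.ncard_image_le hfin)

/-- words of length `n` are combinations of normal words -/
theorem sw_le_nor {Q : Type} [Group Q] {d : ℕ} (q : Fin d → Q) (n : ℕ) :
    sw p q n ≤ Submodule.span (ZMod p) ((fun w => evX (XX p q) w) '' lev (NorQ p q) n) ⊔ au p Q ^ (n + 1) := by
  set S := Submodule.span (ZMod p) ((fun w => evX (XX p q) w) '' lev (NorQ p q) n) ⊔ au p Q ^ (n + 1) with hS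
  -- induction on the number of larger words
  have hfin : {w : List (Fin d) | w.length = n}.Finite := finite_len n
  have key : ∀ k : ℕ, ∀ w : List (Fin d), w.length = n → {w' : List (Fin d) | w'.length = n ∧ Lt w w'}.ncard ≤ k →
      evX (XX p q) w ∈ S := by
    intro k
    induction k with
    | zero =>
      intro w hw hk
      have hemp : {w' : List (Fin d) | w'.length = n ∧ Lt w w'} = ∅ := by
        rw [← Set.ncard_eq_zero (hfin.subset (fun x hx => hx.1))]; omega
      by_cases hn : w ∈ NorQ p q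
      · exact Submodule.mem_sup_left (Submodule.subset_span ⟨w, ⟨hn, hw⟩, rfl⟩)
      · have h1 : evX (XX p q) w ∈ UpQ p q w := not_not.1 hn
        unfold UpQ at h1
        have h2 : {x | ∃ w', w'.length = w.length ∧ Lt w w' ∧ x = evX (XX p q) w'} = ∅ := by
          rw [Set.eq_empty_iff_forall_notMem]
          rintro x ⟨w', h3, h4, -⟩
          have : w' ∈ {w' : List (Fin d) | w'.length = n ∧ Lt w w'} := ⟨by omega, h4⟩
          rw [hemp] at this
          exact this
        rw [h2, Submodule.span_empty, bot_sup_eq, hw] at h1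
        exact Submodule.mem_sup_right h1
    | succ k ih =>
      intro w hw hk
      by_cases hn : w ∈ NorQ p q
      · exact Submodule.mem_sup_left (Submodule.subset_span ⟨w, ⟨hn, hw⟩, rfl⟩)
      · have h1 : evX (XX p q) w ∈ UpQ p q w := not_not.1 hn
        have h2 : UpQ p q w ≤ S := by
          unfold UpQ
          refine sup_le ?_ (by rw [hw]; exact le_sup_right)
          rw [Submodule.span_le]
          rintro x ⟨w', h3, h4, rfl⟩
          refine ih w' (by omega) ?_
          have h5 : {w'' : List (Fin d) | w''.length = n ∧ Lt w' w''} ⊂ {w'' : List (Fin d) | w''.length = n ∧ Lt w w''} := by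
            refine ⟨fun x hx => ⟨hx.1, h4.trans hx.2⟩, fun hcon => ?_⟩
            have : w' ∈ {w'' : List (Fin d) | w''.length = n ∧ Lt w' w''} := hcon ⟨by omega, h4⟩
            exact lt_irrefl' _ this.2
          have h6 := Set.ncard_lt_ncard h5 (hfin.subset (fun x hx => hx.1))
          omega
        exact h2 h1
  unfold sw
  rw [Submodule.span_le]
  rintro x ⟨w, hw, rfl⟩
  exact key _ w hw le_rfl

theorem lev_finite {d : ℕ} (N : Set (List (Fin d))) (n : ℕ) : (lev N n).Finite :=
  (finite_len n).subset (fun _ hx => hx.2)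

theorem nor_countQ {Q : Type} [Group Q] [Finite Q] {d : ℕ} (q : Fin d → Q) (hq : Subgroup.closure (Set.range q) = ⊤) (n : ℕ)
    (hn : 1 ≤ n) [Fact p.Prime] : Module.finrank (ZMod p) (MonoidAlgebra (ZMod p) Q ⧸ au p Q ^ (n + 1)) ≤
      Module.finrank (ZMod p) (MonoidAlgebra (ZMod p) Q ⧸ au p Q ^ n) + (lev (NorQ p q) n).ncard := by
  classical
  have : Module.Finite (ZMod p) (MonoidAlgebra (ZMod p) Q) :=
    Module.Finite.equiv (MonoidAlgebra.coeffLinearEquiv (ZMod p) : MonoidAlgebra (ZMod p) Q ≃ₗ[ZMod p] _).symm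
  have h1 := Submodule.finrank_quotient_add_finrank (au p Q ^ (n + 1))
  have h2 := Submodule.finrank_quotient_add_finrank (au p Q ^ n)
  set S := Submodule.span (ZMod p) ((fun w => evX (XX p q) w) '' lev (NorQ p q) n) with hS
  have h3 : au p Q ^ n ≤ S ⊔ au p Q ^ (n + 1) :=
    (au_pow_le q hq n hn).trans (sup_le (sw_le_nor q n) le_sup_right)
  have h4 := Submodule.finrank_mono h3
  have h5 := Submodule.finrank_add_le_finrank_add_finrank S (au p Q ^ (n + 1))
  have h6 : Module.finrank (ZMod p) ↥S ≤ (lev (NorQ p q) n).ncard := by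
    have hfin := lev_finite (NorQ p q) n
    have hfinS : ((fun w => evX (XX p q) w) '' lev (NorQ p q) n).Finite := hfin.image _
    have h7 : Module.finrank (ZMod p) ↥S ≤ ((fun w => evX (XX p q) w) '' lev (NorQ p q) n).ncard := by
      rw [hS]
      have := finrank_span_finset_le_card (R := ZMod p) hfinS.toFinset
      rw [Set.ncard_eq_toFinset_card _ hfinS]
      unfold Set.finrank at this
      rwa [Set.Finite.coe_toFinset] at this
    exact h7.trans (Set.ncard_image_le hfin)
  omega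


/-- a surjective homomorphism maps words to words and `UpQ` to `UpQ` -/
theorem map_evX {Q Q' : Type} [Group Q] [Group Q'] {d : ℕ} (q : Fin d → Q) (f : Q →* Q') (w : List (Fin d)) :
    MonoidAlgebra.mapDomainAlgHom (ZMod p) (ZMod p) f (evX (XX p q) w) = evX (XX p (fun i => f (q i))) w := by
  unfold evX
  rw [map_list_prod, List.map_map]
  congr 2
  funext i
  simp only [XX, Function.comp_apply, map_sub, map_one]
  congr 1
  simp only [MonoidAlgebra.of_apply, MonoidAlgebra.mapDomainAlgHom_apply, MonoidAlgebra.mapDomain_single]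

theorem map_au {Q Q' : Type} [Group Q] [Group Q'] (f : Q →* Q') (n : ℕ) (x : MonoidAlgebra (ZMod p) Q)
    (hx : x ∈ au p Q ^ n) : MonoidAlgebra.mapDomainAlgHom (ZMod p) (ZMod p) f x ∈ au p Q' ^ n := by
  have h1 : (au p Q).map (MonoidAlgebra.mapDomainAlgHom (ZMod p) (ZMod p) f).toLinearMap ≤ au p Q' := by
    unfold au
    rw [Submodule.map_span, Submodule.span_le]
    rintro x ⟨y, ⟨g, rfl⟩, rfl⟩
    refine Submodule.subset_span ⟨f g, ?_⟩
    simp only [AlgHom.toLinearMap_apply, map_sub, map_one]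
    congr 1
    simp only [MonoidAlgebra.of_apply, MonoidAlgebra.mapDomainAlgHom_apply, MonoidAlgebra.mapDomain_single]
  have h2 : (au p Q ^ n).map (MonoidAlgebra.mapDomainAlgHom (ZMod p) (ZMod p) f).toLinearMap ≤ au p Q' ^ n := by
    rw [Submodule.map_pow]
    exact pow_le_pow_left' h1 n
  exact h2 ⟨x, hx, rfl⟩

theorem nor_mono {Q Q' : Type} [Group Q] [Group Q'] {d : ℕ} (q : Fin d → Q) (f : Q →* Q') (w : List (Fin d))
    (hw : w ∈ NorQ p (fun i => f (q i))) : w ∈ NorQ p q := by
  intro h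
  apply hw
  change evX (XX p (fun i => f (q i))) w ∈ _
  rw [← map_evX]
  have h2 : UpQ p q w ≤ (UpQ p (fun i => f (q i)) w).comap (MonoidAlgebra.mapDomainAlgHom (ZMod p) (ZMod p) f).toLinearMap := by
    unfold UpQ
    refine sup_le ?_ ?_
    · rw [Submodule.span_le]
      rintro x ⟨w', h3, h4, rfl⟩
      simp only [Submodule.comap_coe, Set.mem_preimage, AlgHom.toLinearMap_apply, SetLike.mem_coe]
      rw [map_evX]
      exact Submodule.mem_sup_left (Submodule.subset_span ⟨w', h3, h4, rfl⟩)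
    · intro x hx
      simp only [Submodule.mem_comap, AlgHom.toLinearMap_apply]
      exact Submodule.mem_sup_right (map_au f _ x hx)
  exact h2 h

theorem evX_append {Q : Type} [Group Q] {d : ℕ} (q : Fin d → Q) (u v : List (Fin d)) :
    evX (XX p q) (u ++ v) = evX (XX p q) u * evX (XX p q) v := by simp [evX]

theorem evX_mem {Q : Type} [Group Q] {d : ℕ} (q : Fin d → Q) (u : List (Fin d)) :
    evX (XX p q) u ∈ au p Q ^ u.length := sw_one_le q u.length (Submodule.subset_span ⟨u, rfl, rfl⟩)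

theorem nor_facQ {Q : Type} [Group Q] {d : ℕ} (q : Fin d → Q) : Fac (NorQ p q) := by
  intro u v w h h2
  apply h
  change evX (XX p q) (u ++ v ++ w) ∈ UpQ p q (u ++ v ++ w)
  rw [evX_append, evX_append]
  have h3 : UpQ p q v ≤ (UpQ p q (u ++ v ++ w)).comap
      ((LinearMap.mulRight (ZMod p) (evX (XX p q) w)).comp (LinearMap.mulLeft (ZMod p) (evX (XX p q) u))) := by
    unfold UpQ
    refine sup_le ?_ ?_
    · rw [Submodule.span_le]
      rintro x ⟨v', h3, h4, rfl⟩
      simp only [Submodule.comap_coe, Set.mem_preimage, LinearMap.comp_apply, LinearMap.mulLeft_apply,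
        LinearMap.mulRight_apply, SetLike.mem_coe]
      rw [← evX_append, ← evX_append]
      refine Submodule.mem_sup_left (Submodule.subset_span ⟨u ++ v' ++ w, by simp [h3], ?_, rfl⟩)
      exact (h4.append_left u).append w w
    · intro x hx
      simp only [Submodule.mem_comap, LinearMap.comp_apply, LinearMap.mulLeft_apply, LinearMap.mulRight_apply]
      refine Submodule.mem_sup_right ?_
      have := Submodule.mul_mem_mul (Submodule.mul_mem_mul (evX_mem (p := p) q u) hx) (evX_mem (p := p) q w)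
      rw [← pow_add, ← pow_add] at this
      have h5 : (u ++ v ++ w).length + 1 = u.length + (v.length + 1) + w.length := by simp; ring
      rw [h5]; exact this
  exact h3 h2

section top
variable {G : Type} [Group G] [TopologicalSpace G] [IsTopologicalGroup G] [CompactSpace G]

/-- normal words of `G` -/
def NG (p : ℕ) (G : Type) [Group G] [TopologicalSpace G] {d : ℕ} (gen : Fin d → G) : Set (List (Fin d)) :=
  {w | ∃ U : Subgroup G, IsOpen (U : Set G) ∧ ∃ _ : U.Normal, w ∈ NorQ p (fun i => (QuotientGroup.mk (gen i) : G ⧸ U))}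

theorem nor_anti {d : ℕ} (gen : Fin d → G) (U V : Subgroup G) [hU : U.Normal] [hV : V.Normal] (h : V ≤ U)
    (w : List (Fin d)) (hw : w ∈ NorQ p (fun i => (QuotientGroup.mk (gen i) : G ⧸ U))) :
    w ∈ NorQ p (fun i => (QuotientGroup.mk (gen i) : G ⧸ V)) := by
  let π : G ⧸ V →* G ⧸ U := QuotientGroup.map V U (MonoidHom.id G) (by simpa using h)
  exact nor_mono (fun i => (QuotientGroup.mk (gen i) : G ⧸ V)) π w hw

theorem NG_fac {d : ℕ} (gen : Fin d → G) : Fac (NG p G gen) := by
  rintro u v w ⟨U, h1, h2, h3⟩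
  exact ⟨U, h1, h2, nor_facQ _ u v w h3⟩

theorem NG_exists {d : ℕ} (gen : Fin d → G) (n : ℕ) : ∃ U : Subgroup G, IsOpen (U : Set G) ∧ ∃ _ : U.Normal,
    ∀ w ∈ NG p G gen, w.length ≤ n → w ∈ NorQ p (fun i => (QuotientGroup.mk (gen i) : G ⧸ U)) := by
  have hfin : {w : List (Fin d) | w.length ≤ n ∧ w ∈ NG p G gen}.Finite :=
    (List.finite_length_le (Fin d) n).subset (fun w hw => hw.1)
  have key : ∀ s : Finset (List (Fin d)), (∀ w ∈ s, w ∈ NG p G gen) → ∃ U : Subgroup G, IsOpen (U : Set G) ∧ ∃ _ : U.Normal,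
    ∀ w ∈ s, w ∈ NorQ p (fun i => (QuotientGroup.mk (gen i) : G ⧸ U)) := by
    classical
    intro s
    induction s using Finset.induction_on with
    | empty => exact fun _ => ⟨⊤, isOpen_univ, inferInstance, by simp⟩
    | insert a s ha ih =>
      intro h
      obtain ⟨U, h1, h2, h3⟩ := ih (fun w hw => h w (Finset.mem_insert_of_mem hw))
      obtain ⟨V, h4, h5, h6⟩ := h a (Finset.mem_insert_self _ _)
      refine ⟨U ⊓ V, h1.inter h4, inferInstance, ?_⟩
      intro w hw
      rcases Finset.mem_insert.1 hw with rfl | hw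
      · exact nor_anti gen V (U ⊓ V) inf_le_right _ h6
      · exact nor_anti gen U (U ⊓ V) inf_le_left _ (h3 w hw)
  obtain ⟨U, h1, h2, h3⟩ := key hfin.toFinset (fun w hw => by simp at hw; exact hw.2)
  exact ⟨U, h1, h2, fun w hw hl => h3 w (by simp; exact ⟨hl, hw⟩)⟩


/-- the nested supremum of the frozen statement -/
noncomputable def sf (p : ℕ) (G : Type) [Group G] [TopologicalSpace G] (n : ℕ) : ℕ :=
  ⨆ (N : Subgroup G) (_ : IsOpen (N : Set G)) (hN : N.Normal),
    Module.finrank (ZMod p) (MonoidAlgebra (ZMod p) (G ⧸ N) ⧸ (au p (G ⧸ N)) ^ n)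

theorem gen_quot {d : ℕ} (gen : Fin d → G) (hgen : Dense ((Subgroup.closure (Set.range gen) : Subgroup G) : Set G))
    (U : Subgroup G) (hU : IsOpen (U : Set G)) [U.Normal] :
    Subgroup.closure (Set.range (fun i => (QuotientGroup.mk (gen i) : G ⧸ U))) = ⊤ := by
  rw [eq_top_iff]
  intro x _
  obtain ⟨g, rfl⟩ := QuotientGroup.mk_surjective x
  obtain ⟨h, hh1, hh2⟩ := hgen.inter_open_nonempty ((fun x => g⁻¹ * x) ⁻¹' (U : Set G))
    (hU.preimage (continuous_const_mul g⁻¹)) ⟨g, by simp⟩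
  have h1 : (QuotientGroup.mk g : G ⧸ U) = QuotientGroup.mk h := QuotientGroup.eq.2 hh1
  rw [h1]
  have h4 : Subgroup.closure (Set.range gen) ≤
      (Subgroup.closure (Set.range (fun i => (QuotientGroup.mk (gen i) : G ⧸ U)))).comap (QuotientGroup.mk' U) := by
    rw [Subgroup.closure_le]
    rintro x ⟨i, rfl⟩
    exact Subgroup.subset_closure ⟨i, rfl⟩
  exact h4 hh2

theorem NG_count [Fact p.Prime] {d : ℕ} (gen : Fin d → G)
    (hgen : Dense ((Subgroup.closure (Set.range gen) : Subgroup G) : Set G)) (n : ℕ) (hn : 1 ≤ n) :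
    sf p G (n + 1) - sf p G n ≤ (lev (NG p G gen) n).ncard := by
  -- bounds
  have hb : ∀ m, 1 ≤ m → ∀ U : Subgroup G, IsOpen (U : Set G) → ∀ _ : U.Normal,
      Module.finrank (ZMod p) (MonoidAlgebra (ZMod p) (G ⧸ U) ⧸ (au p (G ⧸ U)) ^ m) ≤
        {w : List (Fin d) | w.length < m}.ncard := by
    intro m hm U hU hUn
    exact finrank_bound _ (gen_quot gen hgen U hU) m hm
  let g : ℕ → Subgroup G → ℕ := fun m N => ⨆ (_ : IsOpen (N : Set G)) (hN : N.Normal),
    Module.finrank (ZMod p) (MonoidAlgebra (ZMod p) (G ⧸ N) ⧸ (au p (G ⧸ N)) ^ m)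
  have hg : ∀ m, ∀ U : Subgroup G, IsOpen (U : Set G) → ∀ hU : U.Normal,
      g m U = Module.finrank (ZMod p) (MonoidAlgebra (ZMod p) (G ⧸ U) ⧸ (au p (G ⧸ U)) ^ m) := by
    intro m U hU hUn
    simp only [g]
    rw [ciSup_pos hU, ciSup_pos hUn]
  have hg0 : ∀ m, ∀ U : Subgroup G, ¬ (IsOpen (U : Set G) ∧ U.Normal) → g m U = 0 := by
    intro m U hU
    simp only [g]
    by_cases h1 : IsOpen (U : Set G)
    · have h2 : ¬ U.Normal := fun h => hU ⟨h1, h⟩
      rw [ciSup_pos h1]
      have : IsEmpty U.Normal := ⟨h2⟩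
      rw [ciSup_of_empty]; rfl
    · have : IsEmpty (IsOpen (U : Set G)) := ⟨h1⟩
      rw [ciSup_of_empty]; rfl
  have hbdd : ∀ m, 1 ≤ m → BddAbove (Set.range (g m)) := by
    intro m hm
    refine ⟨{w : List (Fin d) | w.length < m}.ncard, ?_⟩
    rintro x ⟨U, rfl⟩
    by_cases h : IsOpen (U : Set G) ∧ U.Normal
    · rw [hg m U h.1 h.2]; exact hb m hm U h.1 h.2
    · rw [hg0 m U h]; exact Nat.zero_le _
  have hsf : ∀ m, sf p G m = sSup (Set.range (g m)) := fun m => rfl
  have hle : ∀ m, 1 ≤ m → ∀ U : Subgroup G, IsOpen (U : Set G) → ∀ hU : U.Normal,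
      Module.finrank (ZMod p) (MonoidAlgebra (ZMod p) (G ⧸ U) ⧸ (au p (G ⧸ U)) ^ m) ≤ sf p G m := by
    intro m hm U hU hUn
    rw [hsf, ← hg m U hU hUn]
    exact le_csSup (hbdd m hm) ⟨U, rfl⟩
  obtain ⟨U, hU⟩ := Nat.sSup_mem (Set.range_nonempty (g (n + 1))) (hbdd (n + 1) (by omega))
  rw [← hsf] at hU
  by_cases h : IsOpen (U : Set G) ∧ U.Normal
  · obtain ⟨h1, h2⟩ := h
    rw [hg (n + 1) U h1 h2] at hU
    have hfinQ : Finite (G ⧸ U) := U.quotient_finite_of_isOpen h1
    have h3 := nor_countQ (p := p) _ (gen_quot gen hgen U h1) n hn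
    have h4 := hle n hn U h1 h2
    have h5 : (lev (NorQ p (fun i => (QuotientGroup.mk (gen i) : G ⧸ U))) n).ncard ≤ (lev (NG p G gen) n).ncard := by
      refine Set.ncard_le_ncard ?_ (lev_finite _ _)
      intro w hw
      exact ⟨⟨U, h1, h2, hw.1⟩, hw.2⟩
    omega
  · rw [hg0 _ _ h] at hU
    omega

/-- growth hypothesis => growth of the language of normal words -/
theorem NG_growth [Fact p.Prime] {d : ℕ} (gen : Fin d → G)
    (hgen : Dense ((Subgroup.closure (Set.range gen) : Subgroup G) : Set G)) (r : ℝ) (hr : 1 < r)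
    (hgr : ∀ n : ℕ, 1 ≤ n → r ^ n ≤ ((sf p G (n + 1) - sf p G n : ℕ) : ℝ)) (n : ℕ) :
    r ^ n ≤ ((lev (NG p G gen) n).ncard : ℝ) := by
  rcases Nat.eq_zero_or_pos n with rfl | hn
  · have h1 := (hgr 1 le_rfl).trans (Nat.cast_le.2 (NG_count (p := p) gen hgen 1 le_rfl))
    have h2 : 0 < (lev (NG p G gen) 1).ncard := by
      have : (0 : ℝ) < ((lev (NG p G gen) 1).ncard : ℝ) := lt_of_lt_of_le (by positivity) h1
      exact_mod_cast this
    obtain ⟨w, hw⟩ := Set.nonempty_of_ncard_ne_zero h2.ne'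
    have h3 : ([] : List (Fin d)) ∈ lev (NG p G gen) 0 := ⟨NG_fac gen [] [] w (by simpa using hw.1), rfl⟩
    have h4 : 1 ≤ (lev (NG p G gen) 0).ncard := by
      exact (Set.ncard_pos (lev_finite _ _)).2 ⟨_, h3⟩
    simpa using h4
  · exact (hgr n hn).trans (Nat.cast_le.2 (NG_count (p := p) gen hgen n hn))

end top

end EGF
end Pool.Agent.Helper90.EG
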