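import Pool.Agent.Helper90.EG.Defs

set_option autoImplicit false

namespace Pool.Agent.Helper90.EG

variable {α : Type} [LinearOrder α]

theorem Lt.append {u v : List α} (h : Lt u v) (x y : List α) : Lt (u ++ x) (v ++ y) := by
  obtain ⟨w, u', v', a, b, rfl, rfl, hab⟩ := h
  exact ⟨w, u' ++ x, v' ++ y, a, b, by simp, by simp, hab⟩

theorem Lt.append_left {u v : List α} (h : Lt u v) (x : List α) : Lt (x ++ u) (x ++ v) := by
  obtain ⟨w, u', v', a, b, rfl, rfl, hab⟩ := h
  exact ⟨x ++ w, u', v', a, b, by simp, by simp, hab⟩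

theorem Lt.cons {u v : List α} (h : Lt u v) (x : α) : Lt (x :: u) (x :: v) := h.append_left [x]

theorem Lt.of_cons {u v : List α} {x : α} (h : Lt (x :: u) (x :: v)) : Lt u v := by
  obtain ⟨w, u', v', a, b, h1, h2, hab⟩ := h
  cases w with
  | nil =>
    simp only [List.nil_append, List.cons.injEq] at h1 h2
    rw [← h1.1, ← h2.1] at hab
    exact absurd hab (lt_irrefl _)
  | cons c w =>
    simp only [List.cons_append, List.cons.injEq] at h1 h2
    exact ⟨w, u', v', a, b, h1.2, h2.2, hab⟩

theorem lt_cons_cons {a b : α} {u v : List α} : Lt (a :: u) (b :: v) ↔ a < b ∨ (a = b ∧ Lt u v) := by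
  constructor
  · rintro ⟨w, u', v', x, y, h1, h2, hxy⟩
    cases w with
    | nil =>
      simp only [List.nil_append, List.cons.injEq] at h1 h2
      left; rw [h1.1, h2.1]; exact hxy
    | cons c w =>
      simp only [List.cons_append, List.cons.injEq] at h1 h2
      right
      exact ⟨by rw [h1.1, h2.1], ⟨w, u', v', x, y, h1.2, h2.2, hxy⟩⟩
  · rintro (h | ⟨rfl, h⟩)
    · exact ⟨[], u, v, a, b, rfl, rfl, h⟩
    · exact h.cons a

theorem not_lt_nil_left {v : List α} : ¬ Lt ([] : List α) v := by
  rintro ⟨w, u', v', x, y, h1, h2, hxy⟩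
  simp at h1

theorem not_lt_nil_right {v : List α} : ¬ Lt v ([] : List α) := by
  rintro ⟨w, u', v', x, y, h1, h2, hxy⟩
  simp at h2

theorem lt_irrefl' (u : List α) : ¬ Lt u u := by
  induction u with
  | nil => exact not_lt_nil_left
  | cons a u ih =>
    rw [lt_cons_cons]
    rintro (h | ⟨_, h⟩)
    · exact absurd h (lt_irrefl _)
    · exact ih h

theorem Lt.trans : ∀ {u v w : List α}, Lt u v → Lt v w → Lt u w
  | [], _, _, h, _ => absurd h not_lt_nil_left
  | _ :: _, [], _, h, _ => absurd h not_lt_nil_right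
  | _ :: _, _ :: _, [], _, h => absurd h not_lt_nil_right
  | a :: u, b :: v, c :: w, h1, h2 => by
    rw [lt_cons_cons] at h1 h2 ⊢
    rcases h1 with h1 | ⟨rfl, h1⟩
    · rcases h2 with h2 | ⟨rfl, h2⟩
      · left; exact h1.trans h2
      · left; exact h1
    · rcases h2 with h2 | ⟨rfl, h2⟩
      · left; exact h2
      · right; exact ⟨rfl, Lt.trans h1 h2⟩

theorem lt_asymm' {u v : List α} (h : Lt u v) (h' : Lt v u) : False := lt_irrefl' u (h.trans h')

/-- trichotomy: two words are comparable for the prefix order or deviate -/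
theorem tri : ∀ (u v : List α), u <+: v ∨ v <+: u ∨ Lt u v ∨ Lt v u
  | [], v => Or.inl (List.nil_prefix)
  | _ :: _, [] => Or.inr (Or.inl (List.nil_prefix))
  | a :: u, b :: v => by
    rcases lt_trichotomy a b with h | rfl | h
    · right; right; left; rw [lt_cons_cons]; exact Or.inl h
    · rcases tri u v with h | h | h | h
      · left; exact (List.prefix_cons_inj a).2 h
      · right; left; exact (List.prefix_cons_inj a).2 h
      · right; right; left; exact h.cons a
      · right; right; right; exact h.cons a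
    · right; right; right; rw [lt_cons_cons]; exact Or.inl h

/-- trichotomy for words of the same length -/
theorem tri_len {u v : List α} (h : u.length = v.length) : u = v ∨ Lt u v ∨ Lt v u := by
  rcases tri u v with h1 | h1 | h1 | h1
  · left; exact h1.eq_of_length h
  · left; exact (h1.eq_of_length h.symm).symm
  · right; left; exact h1
  · right; right; exact h1

/-- deviation is not a prefix relation -/
theorem Lt.not_prefix {u v : List α} (h : Lt u v) : ¬ u <+: v := by
  rintro ⟨x, rfl⟩
  have h2 : Lt (u ++ x) (u ++ x) := by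
    obtain ⟨w, u', v', a, b, rfl, hv, hab⟩ := h
    exact ⟨w, u' ++ x, v', a, b, by simp, hv, hab⟩
  exact lt_irrefl' _ h2

theorem Lt.not_prefix' {u v : List α} (h : Lt u v) : ¬ v <+: u := by
  rintro ⟨x, rfl⟩
  have h2 : Lt (v ++ x) (v ++ x) := by
    obtain ⟨w, u', v', a, b, hu, rfl, hab⟩ := h
    exact ⟨w, u', v' ++ x, a, b, hu, by simp, hab⟩
  exact lt_irrefl' _ h2

/-- cancellation on the right for words of the same length -/
theorem Lt.of_append {u v x y : List α} (h : Lt (u ++ x) (v ++ y)) (hl : u.length = v.length) (hne : u ≠ v) :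
    Lt u v := by
  rcases tri_len hl with h1 | h1 | h1
  · exact absurd h1 hne
  · exact h1
  · exact absurd (h1.append y x) (fun h3 => lt_asymm' h h3)

@[simp] theorem pre_length (ξ : ℕ → α) (n : ℕ) : (pre ξ n).length = n := by simp [pre]

theorem pre_add (ξ : ℕ → α) (m n : ℕ) : pre ξ (m + n) = pre ξ m ++ pre (fun i => ξ (m + i)) n := by
  simp [pre, List.range_add, List.map_map, Function.comp_def]

theorem pre_succ (ξ : ℕ → α) (n : ℕ) : pre ξ (n + 1) = pre ξ n ++ [ξ n] := by
  simp [pre, List.range_succ]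

theorem pre_prefix (ξ : ℕ → α) {m n : ℕ} (h : m ≤ n) : pre ξ m <+: pre ξ n := by
  obtain ⟨k, rfl⟩ := Nat.exists_eq_add_of_le h
  rw [pre_add]; exact List.prefix_append _ _

theorem take_pre (ξ : ℕ → α) {m n : ℕ} (h : m ≤ n) : (pre ξ n).take m = pre ξ m := by
  have h1 := pre_prefix ξ h
  rw [List.prefix_iff_eq_take] at h1
  rw [h1]; simp

end Pool.Agent.Helper90.EG
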